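import Pool.Agent.Helper43.AC7.Defs

/-! Project AC9 (MP_e93a6a_ag): classes of function fields of surfaces which are closed under the
untwisting of uniruled threefolds, with tame and wild twists. Definitions. -/

set_option autoImplicit false

namespace Pool.Agent.Helper43.AC9

open IntermediateField Pool.Agent.Helper75.QC Pool.Agent.Helper43.AC7

/-- `p` is the characteristic, `K` is a cyclic extension of `Ω(x, y, z)` of degree `p`, generated by
`w`, `w ^ p - w` is in `Ω(x, y, z)`, and `z` is algebraic over `Ω(x, y)`. -/
def IsArtinSchreier (Ω : Type) {K : Type} [Field Ω] [Field K] [Algebra Ω K] (x y z w : K)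
    (p : ℕ) : Prop :=
  p.Prime ∧ (p : Ω) = 0 ∧ z ∈ Acl Ω {x, y} ∧ w ^ p - w ∈ adjoin Ω {x, y, z} ∧
    adjoin Ω {x, y, z, w} = ⊤ ∧ Module.finrank (adjoin Ω {x, y, z}) K = p

/-- The threefold `v ^ p - v = s ^ m - (w ^ p - w)`, `m = 2` (`m = 3` if `p = 2`), with the function
field `Ω(x, y, z, v, s)`, is uniruled. It is the quotient by the group of order `p` of the product of
the surface with function field `K = Ω(x, y, z, w)` and the curve `u ^ p - u = s ^ m`, and
`v = u - w`. -/
def IsWildTwist (Ω : Type) {K : Type} [Field Ω] [Field K] [Algebra Ω K] (x y z w : K)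
    (p : ℕ) : Prop :=
  ∀ (N : Type) [Field N] [Algebra Ω N] (g : K →ₐ[Ω] N) (v s : N),
    Transcendental g.fieldRange s → v ^ p - v = s ^ (if p = 2 then 3 else 2) - g (w ^ p - w) →
      Uniruled Ω (adjoin Ω {g x, g y, g z, v, s} : IntermediateField Ω N) 3

/-- A class of extensions of `Ω` with the formal properties of the class of all extensions `K` for
which the function fields contained in `K` belong to curves and surfaces with a motive in the thick
tensor category generated by the motives of curves. -/
structure IsMotivic (Ω : Type) [Field Ω] (P : (K : Type) → [Field K] → [Algebra Ω K] → Prop) :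
    Prop where
  /-- subfields -/
  sub : ∀ (K K₀ : Type) [Field K] [Algebra Ω K] [Field K₀] [Algebra Ω K₀], (K₀ →ₐ[Ω] K) →
    P K → P K₀
  /-- products of curves -/
  product : ∀ (K : Type) [Field K] [Algebra Ω K], IsProduct Ω K → P K
  /-- the decomposition of the motive of an abelian cover -/
  abelian : HasAbelian Ω P
  /-- untwisting, degree prime to the characteristic -/
  twist : ∀ (K : Type) [Field K] [Algebra Ω K] (x y z w : K) (n α β : ℕ), IsKummer Ω x y z w n →
    (α.gcd β).Coprime n → HasExc Ω P x y z w n α β → IsUniTwist Ω x y z w n α β → P K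
  /-- untwisting, the degree is the characteristic -/
  wild : ∀ (K : Type) [Field K] [Algebra Ω K] (x y z w : K) (p : ℕ),
    IsArtinSchreier Ω x y z w p → P (adjoin Ω {x, y, z} : IntermediateField Ω K) →
      IsWildTwist Ω x y z w p → P K

theorem IsMotivic.toAC7 {Ω : Type} [Field Ω]
    {P : (K : Type) → [Field K] → [Algebra Ω K] → Prop} (h : IsMotivic Ω P) :
    Pool.Agent.Helper43.AC7.IsMotivic Ω P :=
  ⟨h.sub, h.product, h.abelian, h.twist⟩

end Pool.Agent.Helper43.AC9
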