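import Pool.Agent.Helper43.AC9.Rows
import Pool.Agent.Helper48.V9.Power
import Pool.Agent.Helper48.V10.Single

/-! Project AC9 (MP_e93a6a_ag): the examples. -/

set_option autoImplicit false

namespace Pool.Agent.Helper43.AC9

open IntermediateField Pool.Agent.Helper75.QC Pool.Agent.Helper35.WC Pool.Agent.Helper75.WC
open Pool.Agent.Helper35.V7 Pool.Agent.Helper73.QX Pool.Agent.Helper73.WT Pool.Agent.Helper48.V9
open Pool.Agent.Helper73.SS Pool.Agent.Helper73.QW

variable {Ω : Type} [Field Ω] {P : (K : Type) → [Field K] → [Algebra Ω K] → Prop}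

/-- Covers with wild twists. -/
theorem of_coverW [IsAlgClosed Ω] (hP : IsMotivic Ω P) {p : ℕ} (hp : p.Prime) (hpΩ : (p : Ω) = 0)
    {K : Type} [Field K] [Algebra Ω K] (h : IsCoverW p Ω K) : P K := by
  obtain ⟨R, h1, h2, h3, h4⟩ := h
  exact mem_rows9 hP R h3 fun M hM =>
    (h4 M hM).imp (hP.toAC7.toAC.uniruled _) fun h => Or.inr ⟨p, hp, hpΩ, h⟩

/-- Cyclic base changes. -/
theorem of_rows [IsAlgClosed Ω] (hP : IsMotivic Ω P) {K : Type} [Field K] [Algebra Ω K] {n : ℕ}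
    {x y w : K} (hn2 : 2 ∣ n → P (adjoin Ω {x, y, w ^ (n / 2)} : IntermediateField Ω K))
    (h : ∃ R : IntermediateField Ω K, FiniteDimensional R K ∧ IsGalois R K ∧
      (∀ g h : K ≃ₐ[R] K, g * h = h * g) ∧
      ∀ M : IntermediateField R K, Uniruled Ω M 2 ∨ Row3 Ω R M ∨
        ∃ m, n = 2 * m ∧ M.restrictScalars Ω = adjoin Ω {x, y, w ^ m}) : P K := by
  obtain ⟨R, h1, h2, h3, h4⟩ := h
  refine mem_rows9 hP R h3 fun M _ => ?_
  rcases h4 M with h | h | ⟨m, rfl, h⟩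
  · exact Or.inl (hP.toAC7.toAC.uniruled _ h)
  · exact Or.inr (Or.inl h)
  · left
    have h5 := hn2 ⟨m, rfl⟩
    rw [Nat.mul_div_cancel_left _ two_pos, ← h] at h5
    exact h5

end Pool.Agent.Helper43.AC9
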