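import Pool.Agent.Helper73.SS.CoverEx

/-! Project AC9 (MP_e93a6a_ag): the covers `L_i(w_i) = f_i(x, y) / g(x, y) ^ 2` of the plane. -/

set_option autoImplicit false

namespace Pool.Agent.Helper43.AC9

open IntermediateField Module Pool.Agent.Helper75.QC Pool.Agent.Helper73.QX
  Pool.Agent.Helper73.QW Pool.Agent.Helper73.WT Pool.Agent.Helper73.SS Polynomial

section

variable {p : ℕ} [hp : Fact p.Prime] {Ω : Type} [Field Ω] [Algebra (ZMod p) Ω] [IsAlgClosed Ω]

/-- **The Artin–Schreier equations of an additive polynomial.** -/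
theorem additive_span {e : ℕ} {l : ℕ → Ω} (h0 : l 0 ≠ 0) (he : l e ≠ 0) (he0 : 0 < e) :
    ∃ (n : ℕ) (β c : Fin n → Ω) (b : Fin n → ℕ → Ω),
      ∀ {E : Type} [Field E] [Algebra Ω E] (z : E),
        (∀ j, addV p e (b j) z ^ p - addV p e (b j) z =
          algebraMap Ω E (c j) * addV p (e + 1) l z) ∧
        z = ∑ j, algebraMap Ω E (β j) * addV p e (b j) z := by
  classical
  have hch := charP_of p Ω Ω
  have hp1 := hp.out.one_lt
  have hcard := card_zer (p := p) h0 he
  have hfin : Finite (zer p (e + 1) l) := Nat.finite_of_card_ne_zero (by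
    rw [hcard]
    exact pow_ne_zero _ hp.out.ne_zero)
  have hfd : Module.Finite (ZMod p) (zer p (e + 1) l) := Module.Finite.of_finite
  let B := Module.finBasis (ZMod p) (zer p (e + 1) l)
  choose b c hb hbc _ using fun j => exists_equation (p := p) h0 he he0 (B.coord j)
  obtain ⟨bb, hbb⟩ : ∃ bb : ℕ → Ω, ∀ i, bb i = ∑ j, (B j : Ω) * b j i := ⟨_, fun _ => rfl⟩
  have hlin : ∀ {E : Type} [Field E] [Algebra Ω E] (z : E),
      addV p e bb z = ∑ j, algebraMap Ω E (B j : Ω) * addV p e (b j) z := by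
    intro E _ _ z
    unfold addV
    simp only [hbb, map_sum, map_mul, Finset.sum_mul, Finset.mul_sum]
    rw [Finset.sum_comm]
    refine Finset.sum_congr rfl fun j _ => Finset.sum_congr rfl fun i _ => ?_
    ring
  have hV : ∀ v : zer p (e + 1) l, addV p e bb (v : Ω) = v := by
    intro v
    rw [hlin]
    have h1 : ((∑ j, B.coord j v • B j : zer p (e + 1) l) : Ω) = v := by
      rw [show (∑ j, B.coord j v • B j) = ∑ j, B.repr v j • B j from rfl, B.sum_repr]
    conv_rhs => rw [← h1]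
    rw [Submodule.coe_sum]
    refine Finset.sum_congr rfl fun j _ => ?_
    rw [← hb j v, Submodule.coe_smul, Algebra.smul_def, mul_comm]
    rfl
  have hX : addP p e bb = X := by
    rw [← sub_eq_zero]
    by_contra hne
    have : Fintype (zer p (e + 1) l) := Fintype.ofFinite _
    have hroots : (Finset.univ.image fun v : zer p (e + 1) l => (v : Ω)) ⊆
        (addP p e bb - X).roots.toFinset := by
      intro z hz
      obtain ⟨v, -, rfl⟩ := Finset.mem_image.1 hz
      rw [Multiset.mem_toFinset, mem_roots hne, IsRoot.def, eval_sub, eval_addP, eval_X, hV,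
        sub_self]
    have h2 := Finset.card_le_card hroots
    rw [Finset.card_image_of_injective _ Subtype.val_injective, Finset.card_univ,
      ← Nat.card_eq_fintype_card, hcard] at h2
    obtain ⟨e', rfl⟩ : ∃ e', e = e' + 1 := ⟨e - 1, by omega⟩
    have h3 := (h2.trans (Multiset.toFinset_card_le _)).trans (card_roots' _)
    have h4 : (addP p (e' + 1) bb - X).natDegree ≤ p ^ e' := by
      refine (natDegree_sub_le _ _).trans (max_le (natDegree_addP_le hp1) ?_)
      rw [natDegree_X]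
      exact Nat.one_le_pow _ _ hp.out.pos
    have h5 : p ^ e' < p ^ (e' + 1) := Nat.pow_lt_pow_right hp1 (Nat.lt_succ_self _)
    omega
  refine ⟨_, fun j => (B j : Ω), c, b, fun {E} _ _ z => ⟨fun j => hbc j z, ?_⟩⟩
  rw [← hlin, ← aeval_addP, hX, aeval_X]

variable {K : Type} [Field K] [Algebra Ω K]

/-- the covers `w_i ^ p - w_i = f_i(x, y) / g(x, y) ^ 2` of the plane -/
theorem isCoverW_plane' {a b d e r : ℕ} {f : Fin r → MvPolynomial (Fin 2) Ω}
    {g : MvPolynomial (Fin 2) Ω} {x y : K} {w : Fin r → K} (hab : 0 < a + b)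
    (hf : ∀ i, ∀ m ∈ (f i).support, a * m 0 + b * m 1 ≤ d)
    (hg : ∀ m ∈ g.support, a * m 0 + b * m 1 ≤ e) (he : e ≤ a + b)
    (hd : (max p 3 - 2) * d + 4 * e ≤ 2 * max p 3 * (a + b))
    (hK : adjoin Ω ({x, y} ∪ Set.range w) = ⊤) (hg0 : MvPolynomial.aeval ![x, y] g ≠ 0)
    (hw : ∀ i, (w i ^ p - w i) * MvPolynomial.aeval ![x, y] g ^ 2 =
      MvPolynomial.aeval ![x, y] (f i)) : IsCoverW p Ω K := by
  classical
  have hgg := pow_ne_zero 2 hg0
  have hx : x ∈ adjoin Ω {x, y} := subset_adjoin Ω _ (by simp)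
  have hy : y ∈ adjoin Ω {x, y} := subset_adjoin Ω _ (by simp)
  have hwR : ∀ i, w i ^ p - w i ∈ adjoin Ω {x, y} := by
    intro i
    rw [(eq_div_iff hgg).2 (hw i)]
    exact div_mem (aeval_mem_of _ hx hy _) (pow_mem (aeval_mem_of _ hx hy _) 2)
  have htop : ∀ M : IntermediateField Ω K, adjoin Ω {x, y} ≤ M → (∀ i, w i ∈ M) → M = ⊤ := by
    intro M h1 h2
    rw [eq_top_iff, ← hK, adjoin_le_iff]
    rintro s (hs | ⟨i, rfl⟩)
    · exact h1 (subset_adjoin _ _ hs)
    · exact h2 i
  obtain ⟨hfd, hgal⟩ := galois_of (p := p) w (adjoin Ω {x, y}) hwR htop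
  obtain ⟨hcomm, hcyc⟩ := elem_cyclic (p := p) (Ω := Ω) hwR (by
    intro τ hτ
    let A : IntermediateField (adjoin Ω {x, y} : IntermediateField Ω K) K :=
      fixedField (Subgroup.zpowers τ)
    have hA : ∀ z : K, τ z = z → z ∈ A := by
      intro z hz
      rw [mem_fixedField_iff]
      rintro _ ⟨k, rfl⟩
      have h1 : τ ∈ MulAction.stabilizer (K ≃ₐ[(adjoin Ω {x, y} : IntermediateField Ω K)] K) z :=
        hz
      exact (MulAction.stabilizer (K ≃ₐ[(adjoin Ω {x, y} : IntermediateField Ω K)] K)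
        z).zpow_mem h1 k
    have h1 : A.restrictScalars Ω = ⊤ := by
      refine htop _ (fun z hz => ?_) fun i => hA _ (hτ i)
      exact A.algebraMap_mem ⟨z, hz⟩
    refine AlgEquiv.ext fun z => ?_
    have h2 : z ∈ A.restrictScalars Ω := by
      rw [h1]
      exact mem_top
    exact (mem_fixedField_iff (H := Subgroup.zpowers τ) z).1 h2 τ (Subgroup.mem_zpowers τ))
  refine ⟨adjoin Ω {x, y}, hfd, hgal, hcomm, fun M hM => ?_⟩
  rcases hcyc M hM with h1 | ⟨⟨k, hMw⟩, hfr⟩
  · left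
    rw [h1]
    exact uniruled_plane
  right
  refine rowW_plane (F := ∑ i, MvPolynomial.C (algebraMap (ZMod p) Ω (k i)) * f i) hab ?_ hg he hd
    hg0 ?_ M hMw hfr
  · intro m hm
    have h3 : ∃ i, m ∈ (f i).support := by
      by_contra hcon
      push Not at hcon
      rw [MvPolynomial.mem_support_iff] at hm
      apply hm
      rw [MvPolynomial.coeff_sum]
      refine Finset.sum_eq_zero fun i _ => ?_
      rw [MvPolynomial.coeff_C_mul, MvPolynomial.notMem_support_iff.1 (hcon i), mul_zero]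
    obtain ⟨i, hi⟩ := h3
    exact hf i m hi
  · rw [comb_sub]
    unfold comb
    rw [map_sum, Finset.sum_mul]
    refine Finset.sum_congr rfl fun i _ => ?_
    show em p Ω K (k i) * (w i ^ p - w i) * _ = _
    rw [map_mul, MvPolynomial.aeval_C, mul_assoc, hw i]
    rfl

/-- **The covers `L_i(w_i) = f_i(x, y) / g(x, y) ^ 2` of the plane.** -/
theorem isCoverW_planes {a b d e r : ℕ} {f : Fin r → MvPolynomial (Fin 2) Ω}
    {g : MvPolynomial (Fin 2) Ω} {x y : K} {w : Fin r → K} (j : Fin r → ℕ) (l : Fin r → ℕ → Ω)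
    (hl0 : ∀ i, l i 0 ≠ 0) (hlj : ∀ i, l i (j i) ≠ 0) (hab : 0 < a + b)
    (hf : ∀ i, ∀ m ∈ (f i).support, a * m 0 + b * m 1 ≤ d)
    (hg : ∀ m ∈ g.support, a * m 0 + b * m 1 ≤ e) (he : e ≤ a + b)
    (hd : (max p 3 - 2) * d + 4 * e ≤ 2 * max p 3 * (a + b))
    (hK : adjoin Ω ({x, y} ∪ Set.range w) = ⊤) (hg0 : MvPolynomial.aeval ![x, y] g ≠ 0)
    (hw : ∀ i, addV p (j i + 1) (l i) (w i) * MvPolynomial.aeval ![x, y] g ^ 2 =
      MvPolynomial.aeval ![x, y] (f i)) : IsCoverW p Ω K := by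
  classical
  have hgg := pow_ne_zero 2 hg0
  have hx : x ∈ adjoin Ω {x, y} := subset_adjoin Ω _ (by simp)
  have hy : y ∈ adjoin Ω {x, y} := subset_adjoin Ω _ (by simp)
  -- the Artin-Schreier equations
  have key : ∀ i, ∃ (n : ℕ) (c : Fin n → Ω) (z : Fin n → K),
      (∀ k, z k ^ p - z k = algebraMap Ω K (c k) * addV p (j i + 1) (l i) (w i)) ∧
      w i ∈ adjoin Ω ({x, y} ∪ Set.range z) := by
    intro i
    rcases Nat.eq_zero_or_pos (j i) with h | h
    · refine ⟨0, Fin.elim0, Fin.elim0, fun k => k.elim0, ?_⟩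
      have h1 : addV p (j i + 1) (l i) (w i) = algebraMap Ω K (l i 0) * w i := by
        rw [h]
        unfold addV
        rw [Finset.sum_range_one, pow_zero, pow_one]
      have h2 : w i = (algebraMap Ω K (l i 0))⁻¹ * (MvPolynomial.aeval ![x, y] (f i) /
          MvPolynomial.aeval ![x, y] g ^ 2) := by
        rw [← (eq_div_iff hgg).2 (hw i), h1, ← mul_assoc, inv_mul_cancel₀
          ((_root_.map_ne_zero _).2 (hl0 i)), one_mul]
      have h3 : adjoin Ω {x, y} ≤ adjoin Ω ({x, y} ∪ Set.range (Fin.elim0 : Fin 0 → K)) :=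
        adjoin.mono _ _ _ Set.subset_union_left
      rw [h2]
      exact h3 (mul_mem (inv_mem (IntermediateField.algebraMap_mem _ _))
        (div_mem (aeval_mem_of _ hx hy _) (pow_mem (aeval_mem_of _ hx hy _) 2)))
    · obtain ⟨n, β, c, bb, hbb⟩ := additive_span (p := p) (hl0 i) (hlj i) h
      obtain ⟨h1, h2⟩ := hbb (w i)
      refine ⟨n, c, fun k => addV p (j i) (bb k) (w i), h1, ?_⟩
      have h3 : (∑ k, algebraMap Ω K (β k) * addV p (j i) (bb k) (w i)) ∈
          adjoin Ω ({x, y} ∪ Set.range fun k => addV p (j i) (bb k) (w i)) :=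
        sum_mem fun k _ => mul_mem (IntermediateField.algebraMap_mem _ _)
          (subset_adjoin _ _ (Or.inr ⟨k, rfl⟩))
      rwa [← h2] at h3
  choose n c z hz hwz using key
  let E := Fintype.equivFin (Σ i, Fin (n i))
  refine isCoverW_plane' (f := fun k => MvPolynomial.C (c (E.symm k).1 (E.symm k).2) *
    f (E.symm k).1) (w := fun k => z (E.symm k).1 (E.symm k).2) hab (fun k m hm => ?_) hg he hd
    ?_ hg0 fun k => ?_
  · refine hf (E.symm k).1 m ?_
    rw [MvPolynomial.mem_support_iff, MvPolynomial.coeff_C_mul] at hm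
    rw [MvPolynomial.mem_support_iff]
    exact right_ne_zero_of_mul hm
  · rw [eq_top_iff, ← hK, adjoin_le_iff]
    rintro s (hs | ⟨i, rfl⟩)
    · exact subset_adjoin _ _ (Or.inl hs)
    · refine (adjoin.mono Ω _ _ ?_ : _ ≤ _) (hwz i)
      refine Set.union_subset_union_right _ ?_
      rintro _ ⟨k, rfl⟩
      refine ⟨E ⟨i, k⟩, ?_⟩
      show z (E.symm (E ⟨i, k⟩)).1 (E.symm (E ⟨i, k⟩)).2 = z i k
      rw [E.symm_apply_apply]
  · rw [map_mul, MvPolynomial.aeval_C, hz, mul_assoc, hw]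

end

end Pool.Agent.Helper43.AC9
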