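import Pool.Agent.Helper43.AC9.Defs
import Pool.Agent.Helper43.AC7.Listed
import Pool.Agent.Helper48.V9.Rows

/-! Project AC9 (MP_e93a6a_ag): finite abelian extensions with tame and wild cyclic
subextensions. -/

set_option autoImplicit false

namespace Pool.Agent.Helper43.AC9

open IntermediateField Pool.Agent.Helper75.QC Pool.Agent.Helper35.WC Pool.Agent.Helper75.WC
open Pool.Agent.Helper35.V7 Pool.Agent.Helper73.QX Pool.Agent.Helper73.WT Pool.Agent.Helper48.V9

variable {Ω : Type} [Field Ω] {P : (K : Type) → [Field K] → [Algebra Ω K] → Prop}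

/-- The fields between `R` and `M`. -/
theorem mem_sub (hP : IsMotivic Ω P) {K : Type} [Field K] [Algebra Ω K]
    (R : IntermediateField Ω K) [FiniteDimensional R K]
    (M : IntermediateField R K) (hc : IsCyclic (M ≃ₐ[R] M)) [IsGalois R M]
    (IH : ∀ M'' : IntermediateField R K, Module.finrank R M'' < Module.finrank R M →
      IsCyclic (M'' ≃ₐ[R] M'') → P M'') (N : IntermediateField Ω M)
    (hR : ∀ r : R, algebraMap R M r ∈ N) (hN : N ≠ ⊤) : P N := by
  let M' : IntermediateField R M :=
    { N.toSubfield with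
      algebraMap_mem' := fun r => hR r }
  have hcM' : IsCyclic (M' ≃ₐ[R] M') := cyclic_sub hc M'
  let e : M' ≃ₐ[R] lift M' := liftAlgEquiv M'
  have hcL : IsCyclic (lift M' ≃ₐ[R] lift M') :=
    (MulEquiv.isCyclic (AlgEquiv.autCongr e)).1 hcM'
  have hlt : M' ≠ ⊤ := by
    intro htop
    apply hN
    rw [eq_top_iff]
    intro a _
    have h1 : a ∈ M' := by
      rw [htop]
      exact mem_top
    exact h1
  have hfin : Module.finrank R (lift M') < Module.finrank R M := by
    rw [← e.toLinearEquiv.finrank_eq]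
    have h1 : M' < ⊤ := lt_top_iff_ne_top.2 hlt
    have h2 : Module.finrank R M' < Module.finrank R (⊤ : IntermediateField R M) := by
      by_contra h3
      rw [not_lt] at h3
      exact h1.ne (IntermediateField.eq_of_le_of_finrank_le h1.le h3)
    rwa [finrank_top'] at h2
  have h1 := IH (lift M') hfin hcL
  let ι : N →ₐ[Ω] lift M' :=
    { toFun := fun a => e ⟨a.1, a.2⟩
      map_one' := rfl
      map_mul' := fun _ _ => rfl
      map_zero' := rfl
      map_add' := fun _ _ => rfl
      commutes' := fun _ => rfl }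
  exact hP.sub (lift M') _ ι h1

/-- Finite abelian extensions: the cyclic quotients by induction on the degree. -/
theorem mem_rows9 (hP : IsMotivic Ω P) {K : Type} [Field K] [Algebra Ω K]
    (R : IntermediateField Ω K) [FiniteDimensional R K] [IsGalois R K]
    (hab : ∀ g h : K ≃ₐ[R] K, g * h = h * g)
    (H : ∀ M : IntermediateField R K, IsCyclic (M ≃ₐ[R] M) →
      P M ∨ Row3 Ω R M ∨ RowV Ω R M) : P K := by
  classical
  refine hP.abelian K R ⟨inferInstance, inferInstance, hab⟩ fun M hc => ?_
  change IsCyclic (M ≃ₐ[R] M) at hc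
  obtain ⟨k, hk⟩ : ∃ k, k = Module.finrank R M := ⟨_, rfl⟩
  induction k using Nat.strong_induction_on generalizing M with
  | _ k IH =>
  have hGM : IsGalois R M := isGalois_of_comm hab M
  have IH' : ∀ M'' : IntermediateField R K, Module.finrank R M'' < Module.finrank R M →
      IsCyclic (M'' ≃ₐ[R] M'') → P M'' :=
    fun M'' h1 h2 => IH _ (hk ▸ h1) M'' h2 rfl
  rcases H M hc with h | ⟨n, α, β, x, y, z, w, hn0, hnΩ, hαβ, hα, hβ, hαβ', hz, hRle, hK, hdeg,
    hw0, hwn, huni⟩ | ⟨p, hp, hpΩ, x, y, z, w, hz, hRle, hK, hdeg, hwp, huni⟩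
  · exact h
  · refine hP.twist M x y z w n α β ⟨hnΩ, hw0, hz, hwn, hK, hdeg⟩ hαβ (fun d hdn hd => ?_) huni
    obtain ⟨m, hm⟩ := hdn
    have hne : d ≠ n := by
      rintro rfl
      rcases hd with h | h | h
      · exact hα h
      · exact hβ h
      · exact hαβ' h
    have hd0 : 0 < d := Nat.pos_of_ne_zero (by
      rintro rfl
      rw [zero_mul] at hm
      omega)
    have hm0 : 0 < m := Nat.pos_of_ne_zero (by
      rintro rfl
      rw [mul_zero] at hm
      omega)
    have hdlt : d < n := lt_of_le_of_ne (by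
      rw [hm]
      exact Nat.le_mul_of_pos_right _ hm0) hne
    have hdiv : n / d = m := by
      rw [hm, Nat.mul_div_cancel_left _ hd0]
    rw [hdiv]
    have hPN : (adjoin Ω {x, y, z} : IntermediateField Ω M) ≤ adjoin Ω {x, y, z, w ^ m} :=
      adjoin.mono Ω _ _ (by
        rintro a (rfl | rfl | rfl)
        · simp
        · simp
        · simp)
    refine mem_sub hP R M hc IH' _ (fun r => hPN (hRle r)) ?_
    -- the degree of `N` over `Q` is at most `d`
    intro hNtop
    obtain ⟨F, hF⟩ : ∃ F : IntermediateField Ω M, F = adjoin Ω {x, y, z} := ⟨_, rfl⟩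
    have hfinF : FiniteDimensional F M := Module.finite_of_finrank_pos (by
      rw [hF, hdeg]
      exact hn0)
    obtain ⟨Q, hQ⟩ : ∃ Q : IntermediateField F M, Q = adjoin F {w ^ m} := ⟨_, rfl⟩
    have hQtop : Q = ⊤ := by
      rw [eq_top_iff]
      intro a _
      have h1 : (adjoin Ω {x, y, z, w ^ m} : IntermediateField Ω M) ≤ Q.restrictScalars Ω := by
        rw [adjoin_le_iff]
        have hx : x ∈ F := by
          rw [hF]
          exact subset_adjoin _ _ (by simp)
        have hy : y ∈ F := by
          rw [hF]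
          exact subset_adjoin _ _ (by simp)
        have hz' : z ∈ F := by
          rw [hF]
          exact subset_adjoin _ _ (by simp)
        rintro b (rfl | rfl | rfl | rfl)
        · exact Q.algebraMap_mem (⟨_, hx⟩ : F)
        · exact Q.algebraMap_mem (⟨_, hy⟩ : F)
        · exact Q.algebraMap_mem (⟨_, hz'⟩ : F)
        · show w ^ m ∈ Q
          rw [hQ]
          exact subset_adjoin _ _ rfl
      exact h1 (by
        rw [hNtop]
        exact mem_top)
    have h2 : Module.finrank F Q ≤ d := by
      rw [hQ, adjoin.finrank (Algebra.IsIntegral.isIntegral _)]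
      have hwF : w ^ n ∈ F := by
        rw [hF]
        exact hwn
      have h3 : minpoly F (w ^ m) ∣ Polynomial.X ^ d - Polynomial.C (⟨w ^ n, hwF⟩ : F) := by
        refine minpoly.dvd F _ ?_
        rw [map_sub, map_pow, Polynomial.aeval_X, Polynomial.aeval_C]
        show (w ^ m) ^ d - w ^ n = 0
        rw [← pow_mul, mul_comm m, ← hm, sub_self]
      have h4 := Polynomial.natDegree_le_of_dvd h3 (Polynomial.X_pow_sub_C_ne_zero hd0 _)
      rwa [Polynomial.natDegree_X_pow_sub_C] at h4
    have h5 : Module.finrank F Q = n := by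
      rw [hQtop, finrank_top', ← hdeg, hF]
    omega
  · refine hP.wild M x y z w p ⟨hp, hpΩ, hz, hwp, hK, hdeg⟩ ?_ huni
    refine mem_sub hP R M hc IH' _ hRle fun htop => ?_
    have h1 : Module.finrank (adjoin Ω {x, y, z} : IntermediateField Ω M) M = 1 := by
      rw [htop]
      exact IntermediateField.finrank_top
    rw [hdeg] at h1
    exact hp.one_lt.ne' h1

/-- The data of a cyclic cover in one of the two lists. -/
theorem row_of_list (hP : IsMotivic Ω P) [IsAlgClosed Ω] {R M : Type} [Field R] [Field M]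
    [Algebra Ω R] [Algebra Ω M] [Algebra R M] [IsScalarTower Ω R M] [FiniteDimensional R M]
    [IsGalois R M] (h : Uniruled Ω M 2 ∨ LstN Ω R M) : P M ∨ Row3 Ω R M := by
  rcases h with h | h
  · exact Or.inl (hP.toAC7.toAC.uniruled _ h)
  · exact Pool.Agent.Helper43.AC7.listed3 hP.toAC7 h

end Pool.Agent.Helper43.AC9
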