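import Pool.Agent.Helper48.V10.Single
import Pool.Agent.Helper43.AC9.Plane
import Pool.Agent.Helper48.V9.Rows

/-! Project AC9 (MP_e93a6a_ag): cyclic covers `M / R`, `R ⊆ B = Ω(x, y)` or `R ⊆ B = Ω(x, y, t)`. -/

set_option autoImplicit false

namespace Pool.Agent.Helper43.AC9

open IntermediateField Module Pool.Agent.Helper75.QC Pool.Agent.Helper73.QX
  Pool.Agent.Helper73.QW Pool.Agent.Helper73.WT Pool.Agent.Helper73.SS
  Pool.Agent.Helper35.V7 Pool.Agent.Helper48.V10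

/-- A cyclic covering `w ^ p - w = F(x, y) / g(x, y) ^ 2` of the plane. -/
theorem rowW_plane' {p : ℕ} [hp : Fact p.Prime] {Ω R M : Type} [Field Ω] [Algebra (ZMod p) Ω]
    [IsAlgClosed Ω] [Field R] [Field M] [Algebra Ω M] [Algebra R M] {a b d e : ℕ}
    {F g : MvPolynomial (Fin 2) Ω} {x y w : M}
    (hR : ∀ r : R, algebraMap R M r ∈ adjoin Ω {x, y}) (hM : adjoin Ω {x, y, w} = ⊤)
    (hfin : Module.finrank (adjoin Ω {x, y} : IntermediateField Ω M) M = p) (hab : 0 < a + b)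
    (hF : ∀ m ∈ F.support, a * m 0 + b * m 1 ≤ d)
    (hg : ∀ m ∈ g.support, a * m 0 + b * m 1 ≤ e) (he : e ≤ a + b)
    (hd : (max p 3 - 2) * d + 4 * e ≤ 2 * max p 3 * (a + b))
    (hg0 : MvPolynomial.aeval ![x, y] g ≠ 0)
    (hw : (w ^ p - w) * MvPolynomial.aeval ![x, y] g ^ 2 = MvPolynomial.aeval ![x, y] F) :
    RowW p Ω R M := by
  classical
  have hgg := pow_ne_zero 2 hg0
  have e3 : ∀ {A : Type} (r s : A), ({r, s, r} : Set A) = {r, s} := by
    intro A r s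
    ext t
    simp only [Set.mem_insert_iff, Set.mem_singleton_iff]
    tauto
  have e4 : ∀ {A : Type} (r s t : A), ({r, s, r, t} : Set A) = {r, s, t} := by
    intro A r s t
    ext u
    simp only [Set.mem_insert_iff, Set.mem_singleton_iff]
    tauto
  have hwR : w ^ p - w ∈ adjoin Ω {x, y} := by
    rw [(eq_div_iff hgg).2 hw]
    have hx : x ∈ adjoin Ω {x, y} := subset_adjoin Ω _ (by simp)
    have hy : y ∈ adjoin Ω {x, y} := subset_adjoin Ω _ (by simp)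
    exact div_mem (aeval_mem_of _ hx hy _) (pow_mem (aeval_mem_of _ hx hy _) 2)
  have h2 : p = 2 ∨ (2 : Ω) ≠ 0 := by
    by_cases hp2 : p = 2
    · exact Or.inl hp2
    · exact Or.inr (two_ne_zero' hp2)
  have hgeo : Geo Ω p (aux p) x y (w ^ p - w) := by
    refine geo_of_pole hp.out h2 a b d (2 * e) 0 hab F g (g ^ 2) 1 hF ?_ ?_
      (by rw [one_pow, mul_one]) (by omega) (by omega) hg0 hw
    · intro m hm
      have h3 := wdeg_sq_le hg
      exact (le_wdeg a b (g ^ 2) m hm).trans h3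
    · intro m hm
      have h3 := le_wdeg a b (1 : MvPolynomial (Fin 2) Ω) m hm
      rw [Pool.Agent.Helper73.SS.wdeg_one] at h3
      exact h3
  refine ⟨x, y, x, w, ?_, by rwa [e3], by rwa [e4], by rwa [e3], by rwa [e3], ?_⟩
  · rw [← coe_AF]
    exact subset_AF _ (by simp)
  · intro N _ _ γ δ s hs heq
    have e5 : ∀ r s t u : N, ({r, s, r, t, u} : Set N) = {r, s, t, u} := by
      intro r s t u
      ext v
      simp only [Set.mem_insert_iff, Set.mem_singleton_iff]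
      tauto
    rw [e5]
    refine hgeo N γ δ s ?_ hs heq
    intro h3
    apply hs
    have h4 : IsAlgebraic γ.fieldRange (s ^ aux p) := by
      have h5 : s ^ aux p = δ ^ p - δ + γ (w ^ p - w) := by
        rw [heq]
        ring
      rw [h5]
      exact ((h3.pow p).sub h3).add (isAlgebraic_algebraMap
        (⟨γ (w ^ p - w), ⟨_, rfl⟩⟩ : γ.fieldRange))
    exact IsAlgebraic.of_pow (aux_prime p).pos h4

/-- elliptic surfaces, `t = w ^ n` -/
theorem ell_row3 {Ω R M : Type} [Field Ω] [IsAlgClosed Ω] [Field R] [Field M] [Algebra Ω R]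
    [Algebra Ω M] [Algebra R M] [IsScalarTower Ω R M] [FiniteDimensional R M] [IsGalois R M]
    {n : ℕ} (hn : 2 < n) (a₁ a₂ a₃ a₄ a₆ : Polynomial Ω)
    (h₁ : n * a₁.natDegree ≤ 1 + n / 2) (h₂ : n * a₂.natDegree ≤ 2 * (1 + n / 2))
    (h₃ : n * a₃.natDegree ≤ 3 * (1 + n / 2)) (h₄ : n * a₄.natDegree ≤ 4 * (1 + n / 2))
    (h₆ : n * a₆.natDegree ≤ 6 * (1 + n / 2)) (x y w : M)
    (hR : ∀ r : R, algebraMap R M r ∈ adjoin Ω {x, y, w ^ n}) (hM : adjoin Ω {x, y, w} = ⊤)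
    (hfin : Module.finrank (adjoin Ω {x, y, w ^ n} : IntermediateField Ω M) M = n)
    (h : y ^ 2 + Polynomial.aeval (w ^ n) a₁ * x * y + Polynomial.aeval (w ^ n) a₃ * y =
      x ^ 3 + Polynomial.aeval (w ^ n) a₂ * x ^ 2 + Polynomial.aeval (w ^ n) a₄ * x +
        Polynomial.aeval (w ^ n) a₆) : Uniruled Ω M 2 ∨ Row3 Ω R M := by
  have hy := ell_eq a₁ a₂ a₃ a₄ a₆ x y _ h
  by_cases h2 : (2 : Ω) ≠ 0 ∨ MvPolynomial.aeval ![x, w ^ n] (ellG a₁ a₃) ≠ 0
  · refine Or.inr (dbl_row3 hn (2 * (1 + n / 2)) (ellF a₂ a₄ a₆) (ellG a₁ a₃) x y w hR hM hfin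
      ?_ ?_ h2 hy)
    · intro m hm
      have := ellF_le a₂ a₄ a₆ h₂ h₄ h₆ m hm
      omega
    · intro m hm
      have := ellG_le a₁ a₃ h₁ h₃ m hm
      omega
  · push Not at h2
    exact Or.inl (uniruled_of_zero h2.1 _ _ hM (pow_mem (subset_adjoin _ _ (by simp)) n) h2.2 hy)

/-- elliptic surfaces, `t = w ^ p - w` -/
theorem ell_rowW {p : ℕ} [hp : Fact p.Prime] {Ω R M : Type} [Field Ω] [Algebra (ZMod p) Ω]
    [IsAlgClosed Ω] [Field R] [Field M] [Algebra Ω M] [Algebra R M] (a₁ a₂ a₃ a₄ a₆ : Polynomial Ω)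
    (h₁ : 2 * max p 3 * a₁.natDegree ≤ max p 3 + 2)
    (h₂ : 2 * max p 3 * a₂.natDegree ≤ 2 * (max p 3 + 2))
    (h₃ : 2 * max p 3 * a₃.natDegree ≤ 3 * (max p 3 + 2))
    (h₄ : 2 * max p 3 * a₄.natDegree ≤ 4 * (max p 3 + 2))
    (h₆ : 2 * max p 3 * a₆.natDegree ≤ 6 * (max p 3 + 2)) (x y w t : M)
    (hR : ∀ r : R, algebraMap R M r ∈ adjoin Ω {x, y, t}) (hM : adjoin Ω {x, y, w} = ⊤)
    (hfin : Module.finrank (adjoin Ω {x, y, t} : IntermediateField Ω M) M = p)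
    (ht : w ^ p - w = t)
    (h : y ^ 2 + Polynomial.aeval t a₁ * x * y + Polynomial.aeval t a₃ * y =
      x ^ 3 + Polynomial.aeval t a₂ * x ^ 2 + Polynomial.aeval t a₄ * x +
        Polynomial.aeval t a₆) : Uniruled Ω M 2 ∨ RowW p Ω R M := by
  obtain ⟨P, hP⟩ : ∃ P, P = max p 3 := ⟨_, rfl⟩
  rw [← hP] at h₁ h₂ h₃ h₄ h₆
  obtain ⟨g, k, hk, hg, hgk⟩ : ∃ g k : ℕ, aux p * k ≤ 2 * P ∧ p * g ≤ 2 * P ∧ k + g = P + 2 := by
    by_cases h2 : p = 2
    · refine ⟨3, 2, ?_, ?_, ?_⟩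
      · rw [aux, if_pos h2, hP, h2]
        decide
      · rw [hP, h2]
        decide
      · rw [hP, h2]
        decide
    · have h3 : 3 ≤ p := by
        have := hp.out.two_le
        omega
      have h4 : P = p := by rw [hP, max_eq_left h3]
      refine ⟨2, p, ?_, ?_, ?_⟩
      · rw [aux, if_neg h2, h4]
      · rw [h4, mul_comm]
      · rw [h4]
  have hy := ell_eq a₁ a₂ a₃ a₄ a₆ x y t h
  by_cases h2 : (2 : Ω) ≠ 0 ∨ MvPolynomial.aeval ![x, t] (ellG a₁ a₃) ≠ 0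
  · refine Or.inr (dbl_rowW (a := 2 * (P + 2)) hk hg (by omega) (ellF a₂ a₄ a₆) (ellG a₁ a₃)
      x y w t one_ne_zero (by rw [ht, map_one, one_mul]) hR hM hfin ?_ ?_ h2 hy)
    · intro m hm
      have := ellF_le a₂ a₄ a₆ h₂ h₄ h₆ m hm
      omega
    · intro m hm
      have := ellG_le a₁ a₃ h₁ h₃ m hm
      omega
  · push Not at h2
    refine Or.inl (uniruled_of_zero h2.1 _ _ hM ?_ h2.2 hy)
    rw [← ht]
    exact sub_mem (pow_mem (subset_adjoin _ _ (by simp)) _) (subset_adjoin _ _ (by simp))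

end Pool.Agent.Helper43.AC9
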